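import Pool.Agent.MWU.Top

/-!
# Proof of the top level assembly (MP_23468a_al)
-/

namespace Pool.Agent.MWU.H83

open Pool.Agent.Helper14_MV Pool.Agent.Helper2_MV Pool.Agent.MVO Pool.Agent.MWZ Pool.Agent.MWU

variable {β : FIC}

theorem ncr_co1 : NCR β ↔ ¬ Cls.Co1 β := by
  unfold NCR Cls.Co1
  push Not
  rfl

theorem ofList_X (k : ℕ) : FreeMonoid.ofList (X k) = lx ^ k := MWZ.H28.ofList_X k

theorem rr_X {a b : ℕ} : RR β (X a) (X b) ↔ β.r (lx ^ a) (lx ^ b) := by
  unfold RR
  rw [ofList_X, ofList_X]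

theorem ncr_nil (h : NCR β) {c : ℕ} (hc : 1 ≤ c) : ¬ RR β (X c) [] := by
  intro h1
  have h2 : RR β (X c ++ [0]) ([] ++ [0]) := h1.append (RR.refl _)
  have h3 : RR β (X (c + 1)) (X 1) := by
    have e : X (c + 1) = X c ++ [0] := by
      show List.replicate (c + 1) 0 = List.replicate c 0 ++ [0]
      rw [List.replicate_succ']
    rw [e]
    exact h2
  rw [rr_X, pow_one] at h3
  exact h c hc h3

theorem ncr_one (h : NCR β) {c : ℕ} (h1 : RR β (X 1) (X c)) : c = 1 := by
  rcases Nat.lt_trichotomy c 1 with hc | hc | hc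
  · obtain rfl : c = 0 := by omega
    exact absurd h1 (ncr_nil h le_rfl)
  · exact hc
  · exfalso
    have h2 := rr_X.1 h1.symm
    rw [pow_one] at h2
    obtain ⟨n, rfl⟩ : ∃ n, c = n + 1 := ⟨c - 1, by omega⟩
    exact h n (by omega) h2

theorem ncr_two (h : NCR β) {c : ℕ} (h1 : RR β (X 2) (X c)) : 2 ≤ c := by
  rcases Nat.lt_or_ge c 2 with hc | hc
  · exfalso
    rcases (by omega : c = 0 ∨ c = 1) with rfl | rfl
    · exact ncr_nil h (by omega) h1
    · have h2 := rr_X.1 h1
      rw [pow_one] at h2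
      exact h 1 le_rfl h2
  · exact hc

theorem filt_eq (c : ℕ) (w : List ℕ) :
    (w.filter (fun i => i == c)).flatMap (fun _ => [0]) = X (w.count c) := by
  induction w with
  | nil => rfl
  | cons a w ih =>
    by_cases h : a = c
    · subst h
      rw [List.filter_cons_of_pos (by simp), List.flatMap_cons, ih, List.count_cons_self]
      rfl
    · rw [List.filter_cons_of_neg (by simpa using h), ih, List.count_cons_of_ne (by simpa using h)]

/-- the number of letters `c` -/
theorem rr_count {u v : List ℕ} (h : RR β u v) (c : ℕ) : RR β (X (u.count c)) (X (v.count c)) := by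
  have h1 := (h.filter (fun i => i == c)).sub (fun _ => [0])
  rw [filt_eq, filt_eq] at h1
  exact h1

theorem xyx_form (h : NCR β) {w : List ℕ} (hw : RR β [0, 1, 0] w) :
    ∃ a b, w = X a ++ 1 :: X b ∧ 2 ≤ a + b ∧ RR β (X 2) (X (a + b)) := by
  have h0 : RR β (X 2) (X (w.count 0)) := rr_count hw 0
  have h1 : w.count 1 = 1 := ncr_one h (rr_count hw 1)
  have h2 : ∀ c, c ≠ 0 → c ≠ 1 → w.count c = 0 := by
    intro c hc0 hc1
    by_contra hne
    have h3 := rr_count hw c
    have h4 : ([0, 1, 0] : List ℕ).count c = 0 := by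
      rw [List.count_eq_zero]
      simp [hc0, hc1]
    rw [h4] at h3
    exact ncr_nil h (Nat.one_le_iff_ne_zero.2 hne) h3.symm
  have hm : 1 ∈ w := by
    rw [← List.count_pos_iff]
    omega
  obtain ⟨s, t, rfl⟩ := List.append_of_mem hm
  have hc : s.count 1 + t.count 1 = 0 := by
    rw [List.count_append, List.count_cons_self] at h1
    omega
  have hs : s = X s.length := by
    apply List.eq_replicate_iff.2 ⟨rfl, _⟩
    intro c hcs
    by_contra hc0
    by_cases hc1 : c = 1
    · subst hc1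
      have := List.count_pos_iff.2 hcs
      omega
    · have h3 := h2 c hc0 hc1
      rw [List.count_append] at h3
      have := List.count_pos_iff.2 hcs
      omega
  have ht : t = X t.length := by
    apply List.eq_replicate_iff.2 ⟨rfl, _⟩
    intro c hcs
    by_contra hc0
    by_cases hc1 : c = 1
    · subst hc1
      have := List.count_pos_iff.2 hcs
      omega
    · have h3 := h2 c hc0 hc1
      rw [List.count_append, List.count_cons_of_ne (by simpa using fun h => hc1 h.symm)] at h3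
      have := List.count_pos_iff.2 hcs
      omega
  have hcnt : (s ++ 1 :: t).count 0 = s.length + t.length := by
    rw [hs, ht]
    rw [List.count_append, List.count_cons_of_ne (by decide), List.count_replicate_self,
      List.count_replicate_self, List.length_replicate, List.length_replicate]
  rw [hcnt] at h0
  refine ⟨s.length, t.length, ?_, ncr_two h h0, h0⟩
  rw [← hs, ← ht]

theorem per_step {n : ℕ} (hp : Per n (RR β)) (r k : ℕ) : RR β (X (2 + r)) (X (2 + r + k * n)) := by
  induction k with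
  | zero => simpa using RR.refl (β := β) (X (2 + r))
  | succ k ih =>
    refine β.trans ih ?_
    have h1 : RR β (X 2 ++ X (r + k * n)) (X (n + 2) ++ X (r + k * n)) := hp.append (RR.refl _)
    have e1 : X 2 ++ X (r + k * n) = X (2 + r + k * n) := by
      show List.replicate 2 0 ++ List.replicate (r + k * n) 0 = List.replicate (2 + r + k * n) 0
      rw [← List.replicate_add, add_assoc]
    have e2 : X (n + 2) ++ X (r + k * n) = X (2 + r + (k + 1) * n) := by
      show List.replicate (n + 2) 0 ++ List.replicate (r + k * n) 0 = _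
      rw [← List.replicate_add]
      show _ = List.replicate (2 + r + (k + 1) * n) 0
      congr 1
      ring
    rw [e1, e2] at h1
    exact h1

/-- `x^(1 + n (c + 1)) ≈ x^(n+1)` -/
theorem per_red {n : ℕ} (hn : 1 ≤ n) (hp : Per n (RR β)) (c : ℕ) :
    RR β (X (1 + n * (c + 1))) (X (n + 1)) := by
  have h1 := per_step hp (n - 1) c
  have e1 : 2 + (n - 1) = n + 1 := by omega
  rw [e1] at h1
  have e2 : 1 + n * (c + 1) = n + 1 + c * n := by ring
  rw [e2]
  exact h1.symm

theorem iter_both {a b : ℕ} (h : RR β [0, 1, 0] (X (a + 1) ++ 1 :: X (b + 1))) (k : ℕ) :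
    RR β [0, 1, 0] (X (1 + k * a) ++ 1 :: X (1 + k * b)) := by
  induction k with
  | zero =>
    rw [Nat.zero_mul, Nat.zero_mul, Nat.add_zero]
    exact RR.refl _
  | succ k ih =>
    refine β.trans ih ?_
    have h1 : RR β (X (k * a) ++ ([0, 1, 0] ++ X (k * b)))
        (X (k * a) ++ ((X (a + 1) ++ 1 :: X (b + 1)) ++ X (k * b))) :=
      (RR.refl _).append (h.append (RR.refl _))
    have e1 : X (k * a) ++ ([0, 1, 0] ++ X (k * b)) = X (1 + k * a) ++ 1 :: X (1 + k * b) := by
      show List.replicate (k * a) 0 ++ ([0, 1, 0] ++ List.replicate (k * b) 0) =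
        List.replicate (1 + k * a) 0 ++ 1 :: List.replicate (1 + k * b) 0
      rw [add_comm 1 (k * a), List.replicate_succ', add_comm 1 (k * b), List.replicate_succ]
      simp
    have e2 : X (k * a) ++ ((X (a + 1) ++ 1 :: X (b + 1)) ++ X (k * b)) =
        X (1 + (k + 1) * a) ++ 1 :: X (1 + (k + 1) * b) := by
      show List.replicate (k * a) 0 ++ ((List.replicate (a + 1) 0 ++ 1 :: List.replicate (b + 1) 0) ++
        List.replicate (k * b) 0) =
        List.replicate (1 + (k + 1) * a) 0 ++ 1 :: List.replicate (1 + (k + 1) * b) 0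
      rw [show 1 + (k + 1) * a = k * a + (a + 1) by ring, show 1 + (k + 1) * b = (b + 1) + k * b by ring,
        List.replicate_add (k * a) (a + 1), List.replicate_add (b + 1) (k * b)]
      simp only [List.append_assoc, List.cons_append]
    rw [e1, e2] at h1
    exact h1

theorem cases_xyx {n : ℕ} (hn : 1 ≤ n) (hp : Per n (RR β)) (h : NCR β) (h3 : ¬ Iso3 β) :
    RR β [0, 1, 0] [0, 0, 1] ∨ RR β [0, 1, 0] [1, 0, 0] ∨ Gam n (RR β) ∨ Gam n (Rev (RR β)) ∨
      Bet n (RR β) := by
  unfold Iso3 at h3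
  push Not at h3
  obtain ⟨w, hw, hne⟩ := h3
  obtain ⟨a, b, rfl, hab, h2⟩ := xyx_form h hw
  have h2' := h2.symm
  rcases Nat.eq_zero_or_pos a with rfl | ha
  · right; left
    rw [Nat.zero_add] at h2'
    have h4 : RR β ([1] ++ X b) ([1] ++ X 2) := (RR.refl [1]).append h2'
    exact β.trans hw h4
  rcases Nat.eq_zero_or_pos b with rfl | hb
  · left
    rw [Nat.add_zero] at h2'
    have h4 : RR β (X a ++ [1]) (X 2 ++ [1]) := h2'.append (RR.refl [1])
    exact β.trans hw h4
  obtain ⟨a, rfl⟩ : ∃ c, a = c + 1 := ⟨a - 1, by omega⟩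
  obtain ⟨b, rfl⟩ : ∃ c, b = c + 1 := ⟨b - 1, by omega⟩
  have h5 := iter_both hw n
  rcases Nat.eq_zero_or_pos a with rfl | ha'
  · rcases Nat.eq_zero_or_pos b with rfl | hb'
    · exact absurd rfl hne
    · right; right; left
      obtain ⟨b, rfl⟩ : ∃ c, b = c + 1 := ⟨b - 1, by omega⟩
      have h6 : RR β ([0, 1] ++ X (1 + n * (b + 1))) ([0, 1] ++ X (n + 1)) :=
        (RR.refl _).append (per_red hn hp b)
      rw [Nat.mul_zero] at h5
      exact β.trans h5 h6
  · obtain ⟨a, rfl⟩ : ∃ c, a = c + 1 := ⟨a - 1, by omega⟩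
    rcases Nat.eq_zero_or_pos b with rfl | hb'
    · right; right; right; left
      have h6 : RR β (X (1 + n * (a + 1)) ++ [1, 0]) (X (n + 1) ++ [1, 0]) :=
        (per_red hn hp a).append (RR.refl _)
      rw [Nat.mul_zero] at h5
      show RR β [0, 1, 0] (0 :: 1 :: X (n + 1)).reverse
      have e : (0 :: 1 :: X (n + 1)).reverse = X (n + 1) ++ [1, 0] := by
        show (0 :: 1 :: List.replicate (n + 1) 0).reverse = List.replicate (n + 1) 0 ++ [1, 0]
        rw [List.reverse_cons, List.reverse_cons, List.reverse_replicate]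
        simp
      rw [e]
      exact β.trans h5 h6
    · obtain ⟨b, rfl⟩ : ∃ c, b = c + 1 := ⟨b - 1, by omega⟩
      right; right; right; right
      have h6 : RR β (X (1 + n * (a + 1)) ++ ([1] ++ X (1 + n * (b + 1))))
          (X (n + 1) ++ ([1] ++ X (n + 1))) :=
        (per_red hn hp a).append ((RR.refl _).append (per_red hn hp b))
      exact β.trans h5 h6

/-! ### duality -/

theorem rev_rev (S : List ℕ → List ℕ → Prop) : Rev (Rev S) = S := by
  funext u v
  show S u.reverse.reverse v.reverse.reverse = S u v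
  rw [List.reverse_reverse, List.reverse_reverse]

theorem ncr_op (h : NCR β) : NCR (FIC.op β) := by
  rw [ncr_co1] at h ⊢
  intro h1
  apply h
  have h2 := Cls.op_co1 h1
  rwa [Cls.op_op] at h2

theorem cen_op (h : Cen (FIC.op β)) : Cen β := by
  obtain ⟨k, hk⟩ := h
  refine ⟨k, fun m hm => ?_⟩
  have h1 : β.r (lx ^ m * ly).reverse (ly * lx ^ m).reverse := hk m hm
  have e1 := Cls.rev_xy m 1
  have e2 := Cls.rev_yx m 1
  rw [pow_one] at e1 e2
  rw [e1, e2] at h1
  exact β.symm h1

/-- `x ^ k` central for one `k` -/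
theorem cen_of (h1 : β.r (lx * ly * lx) (lx ^ 2 * ly)) (h : Cls.Co2 β) : Cen β := by
  obtain ⟨k, hk, h2⟩ := h
  have step : ∀ m, k ≤ m → β.r (lx ^ m * ly) (ly * lx ^ m) := by
    intro m hm
    induction m, hm using Nat.le_induction with
    | base => exact h2
    | succ m hm ih =>
      obtain ⟨j, rfl⟩ : ∃ j, m = j + 1 := ⟨m - 1, by omega⟩
      have a1 : β.r (ly * lx ^ (j + 1) * lx) (lx ^ (j + 1) * ly * lx) := FIC.mulR lx (β.symm ih)
      have a2 : β.r (lx ^ j * (lx * ly * lx)) (lx ^ j * (lx ^ 2 * ly)) := β.mul (β.refl _) h1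
      have e1 : lx ^ (j + 1) * ly * lx = lx ^ j * (lx * ly * lx) := by
        rw [pow_succ]; simp only [mul_assoc]
      have e2 : lx ^ j * (lx ^ 2 * ly) = lx ^ (j + 1 + 1) * ly := by
        rw [← mul_assoc, ← pow_add]
      have e3 : ly * lx ^ (j + 1) * lx = ly * lx ^ (j + 1 + 1) := by
        rw [mul_assoc, ← pow_succ]
      rw [e1] at a1
      rw [e2] at a2
      rw [e3] at a1
      exact β.symm (β.trans a1 a2)
  exact ⟨k, step⟩

theorem e101 : FreeMonoid.ofList [0, 1, 0] = lx * ly * lx := rfl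

theorem e001 : FreeMonoid.ofList [0, 0, 1] = lx ^ 2 * ly := rfl

theorem e0011 : FreeMonoid.ofList [0, 0, 1, 1] = lx ^ 2 * ly ^ 2 := rfl

theorem e1100 : FreeMonoid.ofList [1, 1, 0, 0] = ly ^ 2 * lx ^ 2 := rfl

/-- the varieties with `xyx ≈ x²y` -/
theorem cls_nec (hm : ModF β) (h : NCR β) (hc : ¬ Cen β) (h1 : RR β [0, 1, 0] [0, 0, 1]) :
    SC (RR β) := by
  refine ⟨h1, ?_⟩
  have h1' : β.r (lx * ly * lx) (lx ^ 2 * ly) := h1
  rcases Cls.fic_nec h1' hm with h2 | h2 | h2
  · exact absurd h2 (ncr_co1.1 h)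
  · exact absurd (cen_of h1' h2) hc
  · obtain ⟨n, hn, -, h3⟩ := h2
    exact h3

theorem cls_suf {n : ℕ} (hn : 1 ≤ n) (hp : Per n (RR β)) (h : SC (RR β)) : ModF β := by
  have h1' : β.r (lx * ly * lx) (lx ^ 2 * ly) := h.1
  exact distF_modF (Cls.fic_dist h1' (Or.inr ⟨n, hn, rr_X.1 hp, h.2⟩))

/-! ### the assembly -/

section

variable {Q : ℕ → Prop} {SI SB SG : Sy}

theorem fic_nec (iN : Nec Q (fun _ β => Iso3 β) SI) (bN : Nec Q (fun n β => Bet n (RR β)) SB)
    (gN : Nec Q (fun n β => Gam n (RR β)) SG) {n : ℕ} (hn : 1 ≤ n) (hQ : Q n) (hp : Per n (RR β))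
    (h : NCR β) (hc : ¬ Cen β) (hm : ModF β) :
    Sys SI SB SG n (RR β) ∨ Sys SI SB SG n (Rev (RR β)) := by
  by_cases h3 : Iso3 β
  · rcases iN n β hn hQ hp h hc hm h3 with h4 | h4
    · exact Or.inl (Or.inr (Or.inl h4))
    · exact Or.inr (Or.inr (Or.inl h4))
  · have hm' := op_modF hm
    have hp' := MWZ.H28.per_op hp
    have hc' : ¬ Cen (FIC.op β) := fun h => hc (cen_op h)
    have h' := ncr_op h
    rcases cases_xyx hn hp h h3 with h4 | h4 | h4 | h4 | h4
    · exact Or.inl (Or.inl (cls_nec hm h hc h4))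
    · refine Or.inr (Or.inl ?_)
      exact cls_nec (β := FIC.op β) hm' h' hc' h4
    · rcases gN n β hn hQ hp h hc hm h4 with h5 | h5
      · exact Or.inl (Or.inr (Or.inr (Or.inr h5)))
      · exact Or.inr (Or.inr (Or.inr (Or.inr h5)))
    · rcases gN n (FIC.op β) hn hQ hp' h' hc' hm' h4 with h5 | h5
      · exact Or.inr (Or.inr (Or.inr (Or.inr h5)))
      · rw [MWZ.H28.rev_eq, rev_rev] at h5
        exact Or.inl (Or.inr (Or.inr (Or.inr h5)))
    · rcases bN n β hn hQ hp h hc hm h4 with h5 | h5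
      · exact Or.inl (Or.inr (Or.inr (Or.inl h5)))
      · exact Or.inr (Or.inr (Or.inr (Or.inl h5)))

theorem fic_suf1 (iS : Suf Q SI) (bS : Suf Q SB) (gS : Suf Q SG) {n : ℕ} (hn : 1 ≤ n) (hQ : Q n)
    (hp : Per n (RR β)) (h : Sys SI SB SG n (RR β)) : ModF β := by
  rcases h with h | h | h | h
  · exact cls_suf hn hp h
  · exact iS n β hn hQ hp h
  · exact bS n β hn hQ hp h
  · exact gS n β hn hQ hp h

theorem fic_suf (iS : Suf Q SI) (bS : Suf Q SB) (gS : Suf Q SG) {n : ℕ} (hn : 1 ≤ n) (hQ : Q n)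
    (hp : Per n (RR β)) (h : Sys SI SB SG n (RR β) ∨ Sys SI SB SG n (Rev (RR β))) : ModF β := by
  rcases h with h | h
  · exact fic_suf1 iS bS gS hn hQ hp h
  · exact MWZ.H28.modF_op (fic_suf1 (β := FIC.op β) iS bS gS hn hQ (MWZ.H28.per_op hp) h)

/-- **the classification for the periods `n` with `Q n`** -/
theorem thm (iN : Nec Q (fun _ β => Iso3 β) SI) (bN : Nec Q (fun n β => Bet n (RR β)) SB)
    (gN : Nec Q (fun n β => Gam n (RR β)) SG) (iS : Suf Q SI) (bS : Suf Q SB) (gS : Suf Q SG) :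
    Thm Q SI SB SG := by
  intro V hV
  constructor
  · intro hm
    by_cases hcr : V.CompletelyRegular
    · exact Or.inl hcr
    right
    by_cases hs : Sqr V ∨ Hpc V
    · left
      have h1 := (MVO.H83.final MVO.H83.rows V hs).1 hm
      refine ⟨h1.1, ?_⟩
      rcases h1.2 with ⟨w, hw, h2⟩ | h2 | h2
      · left
        intro hx
        exact hw (hx w h2)
      · exact Or.inr (Or.inl h2)
      · exact Or.inr (Or.inr h2)
    · right
      have h1 : ∃ n, 1 ≤ n ∧ Q n ∧ Per n (VS V) := by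
        rcases hV with h | h | h | h
        · exact absurd h hcr
        · exact absurd (Or.inl h) hs
        · exact absurd (Or.inr h) hs
        · exact h
      obtain ⟨n, hn, hQ, hp⟩ := h1
      refine ⟨n, hn, hQ, hp, ?_⟩
      have hm' := (modular_iff V).1 hm
      have hncr : NCR (th V) := by
        intro k hk h
        exact hcr ((Cls.cr_iff V).2 ⟨k, hk, h⟩)
      exact fic_nec (β := th V) iN bN gN hn hQ hp hncr (fun h => hs (Or.inr h)) hm'
  · rintro (h | ⟨hc, hg⟩ | ⟨n, hn, hQ, hp, h⟩)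
    · obtain ⟨n, hn, h2⟩ := (Cls.cr_iff V).1 h
      rw [modular_iff]
      exact FIC.modular_CR (FIC.CR.of_letter hn h2)
    · refine (MVO.H83.final MVO.H83.rows V (Or.inr hc)).2 ⟨hc, ?_⟩
      rcases hg with h | h | h
      · left
        unfold Xyx at h
        push Not at h
        obtain ⟨w, hw, hne⟩ := h
        exact ⟨w, hne, hw⟩
      · exact Or.inr (Or.inl h)
      · exact Or.inr (Or.inr h)
    · rw [modular_iff]
      exact fic_suf (β := th V) iS bS gS hn hQ hp h

end

/-- a variety which is not completely regular and for which `x²` is not an isoterm -/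
theorem per_exists {V : Variety} (hcr : ¬ V.CompletelyRegular) (hs : ¬ Sqr V) :
    ∃ n, 1 ≤ n ∧ Per n (VS V) := by
  unfold Sqr at hs
  push Not at hs
  obtain ⟨w, hw1, hw2⟩ := hs
  have hcr' : ∀ n, 1 ≤ n → ¬ (th V).r (lx ^ (n + 1)) lx :=
    fun n hn h => hcr ((Cls.cr_iff V).2 ⟨n, hn, h⟩)
  obtain ⟨n, hn, h3⟩ := Cls.sq_id hcr' hw1 hw2
  refine ⟨n, hn, ?_⟩
  show RR (th V) (X 2) (X (n + 2))
  rw [rr_X]
  exact h3

/-- **the classification of all varieties** -/
theorem thmAll {SI SB SG : Sy} (iN : Nec (fun _ => True) (fun _ β => Iso3 β) SI)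
    (bN : Nec (fun _ => True) (fun n β => Bet n (RR β)) SB)
    (gN : Nec (fun _ => True) (fun n β => Gam n (RR β)) SG) (iS : Suf (fun _ => True) SI)
    (bS : Suf (fun _ => True) SB) (gS : Suf (fun _ => True) SG) : ThmAll SI SB SG := by
  intro V
  have hV : V.CompletelyRegular ∨ Sqr V ∨ Hpc V ∨ ∃ n, 1 ≤ n ∧ True ∧ Per n (VS V) := by
    by_cases hcr : V.CompletelyRegular
    · exact Or.inl hcr
    by_cases hs : Sqr V
    · exact Or.inr (Or.inl hs)
    obtain ⟨n, hn, hp⟩ := per_exists hcr hs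
    exact Or.inr (Or.inr (Or.inr ⟨n, hn, trivial, hp⟩))
  rw [thm iN bN gN iS bS gS V hV]
  simp only [true_and]

/-- aperiodic varieties -/
theorem aper {V : Variety} (h : ∃ m, V.Sat (lx ^ (m + 1)) (lx ^ m)) :
    V.CompletelyRegular ∨ Sqr V ∨ Hpc V ∨ ∃ n, 1 ≤ n ∧ n = 1 ∧ Per n (VS V) := by
  by_cases hcr : V.CompletelyRegular
  · exact Or.inl hcr
  by_cases hs : Sqr V
  · exact Or.inr (Or.inl hs)
  obtain ⟨n, hn, hp⟩ := per_exists hcr hs
  refine Or.inr (Or.inr (Or.inr ⟨1, le_rfl, rfl, ?_⟩))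
  obtain ⟨m, hm⟩ := h
  have hp' : RR (th V) (X 2) (X (n + 2)) := hp
  have hm' : RR (th V) (X (m + 1)) (X m) := by
    rw [rr_X]; exact hm
  show RR (th V) (X 2) (X (1 + 2))
  -- `x² ≈ x^(2 + m n) ≈ x^(3 + m n) ≈ x³`
  have h1 := per_step hp' 0 m
  have h2 := per_step hp' 1 m
  have h3 : RR (th V) (X (m + 1) ++ X (2 + m * n - m)) (X m ++ X (2 + m * n - m)) :=
    hm'.append (RR.refl _)
  have hle : m ≤ 2 + m * n := by nlinarith
  have e1 : X (m + 1) ++ X (2 + m * n - m) = X (2 + 1 + m * n) := by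
    show List.replicate _ 0 ++ List.replicate _ 0 = List.replicate _ 0
    rw [← List.replicate_add]
    congr 1
    omega
  have e2 : X m ++ X (2 + m * n - m) = X (2 + 0 + m * n) := by
    show List.replicate _ 0 ++ List.replicate _ 0 = List.replicate _ 0
    rw [← List.replicate_add]
    congr 1
    omega
  rw [e1, e2] at h3
  exact (th V).trans h1 ((th V).trans h3.symm h2.symm)

end Pool.Agent.MWU.H83
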